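import Mathlib
import Pool.Agent.Helper13.PR.Kos2

/-!
# The symmetrizer of two blocks
-/

namespace Pool.Agent.Helper13.P2

open Pool.Agent.Helper13.PR

/-- the average over the permutations which preserve the first `a` and the last `b` letters -/
noncomputable def sbl (Ω : Type*) [Field Ω] {R : Type*} [Ring R] [Algebra Ω R] {n : ℕ}
    (ρ : Equiv.Perm (Fin n) → R) {a b : ℕ} (h : a + b = n) : R :=
  avg Ω (fun g : Equiv.Perm (Fin a) × Equiv.Perm (Fin b) => ρ (emb (blocks h) g.1 g.2))

end Pool.Agent.Helper13.P2
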