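import Mathlib
import Pool.Agent.Helper13.PR.Kos5
import Pool.Agent.Helper13.P2.Defs

/-!
# The projectors to the super symmetric powers
-/

universe u v w t

open CategoryTheory TensorProduct

namespace Pool.Agent.Helper13.P2

open Pool.Agent.Helper10 Pool.Agent.Helper11.Iso SmProjVar SPre Pool.Agent.Helper34.ZP
  Pool.Agent.Helper59.ZO Pool.Agent.Helper13.ZP Pool.Agent.Helper13.PR

variable {k : Type u} [Field k] {K : Type t} [Field K] {Ω : Type v} [Field Ω] [Algebra K Ω]
  {P : SPre.{u, v, w, t} k K Ω}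

/-- the projector to the symmetric power -/
noncomputable def ssp (P : SPre.{u, v, w, t} k K Ω) (Z : SmProjVar k) (n : ℕ) :
    Module.End Ω (P.H (Z.selfProd n)) :=
  avg Ω (fun σ => prm P Z n σ)

lemma ssp_mem (Z : SmProjVar k) (n : ℕ) : ssp P Z n ∈ Mor P (Z.selfProd n) (Z.selfProd n) :=
  Submodule.smul_mem _ _ (sum_mem fun σ _ => prm_mem Z n σ)

lemma ssp_idem [CharZero Ω] (Z : SmProjVar k) (n : ℕ) : ssp P Z n ∘ₗ ssp P Z n = ssp P Z n :=
  avg_mul_avg (prm P Z n)

lemma ssp_mul_prm (Z : SmProjVar k) (n : ℕ) (σ : Equiv.Perm (Fin (n + 1))) :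
    ssp P Z n * prm P Z n σ = ssp P Z n :=
  avg_mul_right (prm P Z n) σ

/-- the powers of an even class are symmetric -/
lemma ssp_zpow [CharZero Ω] {Z : SmProjVar k} {z : P.H Z} (hz : z ∈ P.ev Z) (n : ℕ) :
    ssp P Z n (zpow z n) = zpow z n := by
  have h2 : ∀ σ, prm P Z n σ (zpow z n) = zpow z n := fun σ => by
    rw [zpow_eq]
    exact prm_extPow (fun _ => hz) σ fun _ => rfl
  unfold ssp avg
  rw [LinearMap.smul_apply, LinearMap.sum_apply]
  simp only [h2]
  rw [Finset.sum_const, Finset.card_univ, ← Nat.cast_smul_eq_nsmul Ω, smul_smul,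
    inv_mul_cancel₀ (Nat.cast_ne_zero.2 Fintype.card_ne_zero), one_smul]

lemma one_le_ssp [CharZero Ω] {Z : SmProjVar k} {z : P.H Z} (hz : z ∈ P.ev Z) (hz0 : z ≠ 0)
    (n : ℕ) : 1 ≤ Module.finrank Ω (LinearMap.range (ssp P Z n)) := by
  have := P.fin (Z.selfProd n)
  rw [Nat.one_le_iff_ne_zero]
  intro h
  rw [Submodule.finrank_eq_zero, LinearMap.range_eq_bot] at h
  have h1 := ssp_zpow hz n
  rw [h, LinearMap.zero_apply] at h1
  exact zpow_ne_zero hz0 n h1.symm

/-- data for words -/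
lemma word_data' [CharZero Ω] (P : SPre.{u, v, w, t} k K Ω) (Z : SmProjVar k) (n : ℕ) :
    ∃ (J : Type w) (_ : Fintype J) (B : Module.Basis (Fin (n + 1) → J) Ω (P.H (Z.selfProd n))),
      Fintype.card J = Module.finrank Ω (P.H Z) ∧
      ∀ w σ, prm P Z n σ (B w) = B (w ∘ ⇑σ⁻¹) ∨ prm P Z n σ (B w) = - B (w ∘ ⇑σ⁻¹) := by
  classical
  obtain ⟨J, _, b, hb⟩ := g6_exists_basis P Z
  obtain ⟨B, hB⟩ := g6_word_basis b hb n
  refine ⟨J, inferInstance, B, (Module.finrank_eq_card_basis b).symm, fun w σ => ?_⟩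
  have h1 := g6_pull_word (P := P) (fun j => (⟨b j, hb j⟩ : P.homSub Z)) n σ⁻¹ w
  rw [P.cls_eq, coe_pullHom, coe_extPowHom, coe_extPowHom] at h1
  rw [hB, hB, prm_apply]
  exact h1

/-- the rank of the symmetric powers -/
theorem ssp_rank_le [CharZero Ω] (Z : SmProjVar k) (n : ℕ) :
    Module.finrank Ω (LinearMap.range (ssp P Z n)) ≤ (n + 2) ^ Module.finrank Ω (P.H Z) := by
  classical
  obtain ⟨J, _, B, hcard, h3⟩ := word_data' P Z n
  have := P.fin (Z.selfProd n)
  -- the numbers of occurrences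
  let m : (Fin (n + 1) → J) → (J → Fin (n + 2)) := fun w a =>
    ⟨(Finset.univ.filter fun i => w i = a).card, by
      have := Finset.card_le_univ (Finset.univ.filter fun i => w i = a)
      rw [Fintype.card_fin] at this
      omega⟩
  have key : ∀ w w', m w = m w' → ssp P Z n (B w) ∈ Submodule.span Ω {ssp P Z n (B w')} := by
    intro w w' hm
    have h4 : ∀ a, Nonempty ({i // w i = a} ≃ {i // w' i = a}) := fun a => by
      refine ⟨Fintype.equivOfCardEq ?_⟩
      have h5 := congrArg (fun f : J → Fin (n + 2) => (f a : ℕ)) hm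
      rw [Fintype.card_subtype, Fintype.card_subtype]
      exact h5
    let e : ∀ a, {i // w i = a} ≃ {i // w' i = a} := fun a => (h4 a).some
    let σ : Equiv.Perm (Fin (n + 1)) := (Equiv.sigmaFiberEquiv w).symm.trans
      ((Equiv.sigmaCongrRight e).trans (Equiv.sigmaFiberEquiv w'))
    have hσ : ∀ i, w' (σ i) = w i := fun i => (e (w i) ⟨i, rfl⟩).2
    have hw : w ∘ ⇑σ⁻¹ = w' := by
      funext i
      have h6 := hσ (σ⁻¹ i)
      rw [← Equiv.Perm.mul_apply, mul_inv_cancel, Equiv.Perm.one_apply] at h6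
      exact h6.symm
    have h6 := LinearMap.congr_fun (ssp_mul_prm (P := P) Z n σ) (B w)
    rw [Module.End.mul_apply] at h6
    rw [← h6]
    rcases h3 w σ with h5 | h5
    · rw [h5, hw]
      exact Submodule.mem_span_singleton_self _
    · rw [h5, hw, map_neg]
      exact Submodule.neg_mem _ (Submodule.mem_span_singleton_self _)
  let v : (J → Fin (n + 2)) → P.H (Z.selfProd n) := fun f =>
    if h : ∃ w, m w = f then ssp P Z n (B h.choose) else 0
  have h4 : LinearMap.range (ssp P Z n) ≤ Submodule.span Ω (Set.range v) := by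
    rintro _ ⟨x, rfl⟩
    rw [← B.sum_repr x, map_sum]
    refine Submodule.sum_mem _ fun w _ => ?_
    rw [map_smul]
    refine Submodule.smul_mem _ _ ?_
    have hex : ∃ w', m w' = m w := ⟨w, rfl⟩
    have h5 : v (m w) = ssp P Z n (B hex.choose) := by
      simp only [v, dif_pos hex]
    refine Submodule.span_mono ?_ (key w hex.choose hex.choose_spec.symm)
    rw [← h5]
    exact Set.singleton_subset_iff.2 ⟨_, rfl⟩
  refine (Submodule.finrank_mono h4).trans ((finrank_range_le_card v).trans ?_)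
  rw [Fintype.card_fun, Fintype.card_fin, hcard]

theorem adj_ssp [CharZero Ω] (Z : SmProjVar k) (n : ℕ) : adj (ssp P Z n) = ssp P Z n := by
  change adj (avg Ω (fun σ => prm P Z n σ) : P.H (Z.selfProd n) →ₗ[Ω] P.H (Z.selfProd n)) =
    avg Ω (fun σ => prm P Z n σ)
  unfold avg
  rw [adj_smul', adj_sum']
  congr 1
  refine Fintype.sum_equiv (Equiv.inv _) _ _ fun σ => ?_
  rw [adj_prm]
  rfl

/-! ### products -/

/-- the symmetrizer of two blocks is the product of the symmetrizers -/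
theorem join_sbl (Z : SmProjVar k) (a b : ℕ)
    (h : (a + 1) + (b + 1) = (a + b + 1) + 1) (x : P.H (Z.selfProd (a + b + 1))) :
    P.pull (joinH Z a b) (sbl Ω (fun σ => prm P Z (a + b + 1) σ) h x) =
      tmap (ssp P Z a) (ssp P Z b) (P.pull (joinH Z a b) x) := by
  have h1 : (tmap (ssp P Z a) (ssp P Z b) : P.H _ →ₗ[Ω] P.H _) =
      avg Ω (fun p : Equiv.Perm (Fin (a + 1)) × Equiv.Perm (Fin (b + 1)) =>
        (tmap (prm P Z a p.1) (prm P Z b p.2) : Module.End Ω (P.H _))) :=
    tmap_avg _ _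
  rw [h1]
  unfold sbl avg
  rw [LinearMap.smul_apply, LinearMap.sum_apply, LinearMap.smul_apply, LinearMap.sum_apply,
    map_smul (P.pull _), map_sum (P.pull _)]
  congr 1
  refine Finset.sum_congr rfl fun g _ => ?_
  rw [join_prm]

theorem rank_sbl (Z : SmProjVar k) (a b : ℕ) (h : (a + 1) + (b + 1) = (a + b + 1) + 1) :
    Module.finrank Ω (LinearMap.range (sbl Ω (fun σ => prm P Z (a + b + 1) σ) h)) =
      Module.finrank Ω (LinearMap.range (ssp P Z a)) *
        Module.finrank Ω (LinearMap.range (ssp P Z b)) := by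
  rw [← finrank_range_tmap]
  have h1 : ∀ x, P.pull (joinH Z a b) (P.pull (splitH Z a b) x) = x := fun x => by
    rw [pull_pull, join_split, pull_id_apply]
  have h2 : ∀ x, P.pull (splitH Z a b) (P.pull (joinH Z a b) x) = x := fun x => by
    rw [pull_pull, split_join, pull_id_apply]
  have hinj : Function.Injective (P.pull (joinH Z a b)).toLinearMap := fun x y hxy => by
    have := congrArg (P.pull (splitH Z a b)) hxy
    change P.pull _ (P.pull _ x) = P.pull _ (P.pull _ y) at this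
    rwa [h2, h2] at this
  have h3 : (LinearMap.range (sbl Ω (fun σ => prm P Z (a + b + 1) σ) h)).map
      (P.pull (joinH Z a b)).toLinearMap = LinearMap.range (tmap (ssp P Z a) (ssp P Z b)) := by
    ext y
    constructor
    · rintro ⟨_, ⟨x, rfl⟩, rfl⟩
      exact ⟨_, (join_sbl Z a b h x).symm⟩
    · rintro ⟨x, rfl⟩
      refine ⟨_, ⟨P.pull (splitH Z a b) x, rfl⟩, ?_⟩
      have h4 := join_sbl (P := P) Z a b h (P.pull (splitH Z a b) x)
      rw [h1] at h4
      exact h4
  rw [← h3]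
  exact (Submodule.equivMapOfInjective _ hinj _).finrank_eq

theorem rho_sbl (Z T : SmProjVar k) (a b : ℕ) (h : (a + 1) + (b + 1) = (a + b + 1) + 1) :
    rho P (tmap (sbl Ω (fun σ => prm P Z (a + b + 1) σ) h)
      (LinearMap.id : P.H T →ₗ[Ω] P.H T)) =
      rho P (tmap (tmap (ssp P Z a) (ssp P Z b)) (LinearMap.id : P.H T →ₗ[Ω] P.H T)) := by
  symm
  refine rho_eq_of_iso (i := pm (joinH Z a b) (𝟙 T.toOver)) (p := pm (splitH Z a b) (𝟙 T.toOver))
    (pm_comp_id (join_split Z a b)) (pm_comp_id (split_join Z a b)) fun x => ?_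
  have h1 : (P.pull (pm (joinH Z a b) (𝟙 T.toOver))).toLinearMap ∘ₗ
      tmap (sbl Ω (fun σ => prm P Z (a + b + 1) σ) h) (LinearMap.id : P.H T →ₗ[Ω] P.H T) =
      tmap (tmap (ssp P Z a) (ssp P Z b)) (LinearMap.id : P.H T →ₗ[Ω] P.H T) ∘ₗ
        (P.pull (pm (joinH Z a b) (𝟙 T.toOver))).toLinearMap := by
    refine hom_ext_ext fun x y => ?_
    rw [LinearMap.comp_apply, LinearMap.comp_apply, AlgHom.toLinearMap_apply,
      AlgHom.toLinearMap_apply, tmap_ext, pull_pm_ext, pull_pm_ext, tmap_ext, join_sbl]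
    rfl
  exact LinearMap.congr_fun h1 x

end Pool.Agent.Helper13.P2
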