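import Mathlib
import Pool.Agent.Helper13.P2.Ssp
import Pool.Agent.Helper46.QL.Q2

/-!
# Direct summands
-/

universe u v w t

open CategoryTheory TensorProduct

namespace Pool.Agent.Helper13.P2

open Pool.Agent.Helper10 Pool.Agent.Helper11.Iso SmProjVar SPre Pool.Agent.Helper34.ZP
  Pool.Agent.Helper59.ZO Pool.Agent.Helper13.ZP Pool.Agent.Helper13.PR

section lin

variable {F V : Type*} [Field F] [AddCommGroup V] [Module F V] [Module.Finite F V]

lemma rank_mul_le (u q w : Module.End F V) :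
    Module.finrank F (LinearMap.range (u * q * w)) ≤ Module.finrank F (LinearMap.range q) := by
  have h1 : LinearMap.range (u * q * w) ≤ (LinearMap.range q).map u := by
    rintro _ ⟨x, rfl⟩
    exact ⟨q (w x), ⟨w x, rfl⟩, rfl⟩
  exact (Submodule.finrank_mono h1).trans (Submodule.finrank_map_le _ _)

lemma rank_add_le {q r e : Module.End F V} (hq : q * q = q) (hqr : q * r = 0)
    (heq : e * q = q) (her : e * r = r) :
    Module.finrank F (LinearMap.range q) + Module.finrank F (LinearMap.range r) ≤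
      Module.finrank F (LinearMap.range e) := by
  have h1 : LinearMap.range q ⊓ LinearMap.range r = ⊥ := by
    rw [eq_bot_iff]
    rintro x ⟨⟨a, ha⟩, ⟨b, hb⟩⟩
    rw [Submodule.mem_bot]
    have h2 : q x = x := by
      rw [← ha, ← Module.End.mul_apply, hq]
    have h3 : q x = 0 := by
      rw [← hb, ← Module.End.mul_apply, hqr, LinearMap.zero_apply]
    rw [← h2, h3]
  have h2 : LinearMap.range q ⊔ LinearMap.range r ≤ LinearMap.range e := by
    refine sup_le ?_ ?_
    · rintro _ ⟨x, rfl⟩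
      exact ⟨q x, LinearMap.congr_fun heq x⟩
    · rintro _ ⟨x, rfl⟩
      exact ⟨r x, LinearMap.congr_fun her x⟩
  have h3 := Submodule.finrank_sup_add_finrank_inf_eq (LinearMap.range q) (LinearMap.range r)
  rw [h1, finrank_bot, add_zero] at h3
  rw [← h3]
  exact Submodule.finrank_mono h2

end lin

variable {k : Type u} [Field k] {K : Type t} [Field K] {Ω : Type v} [Field Ω] [Algebra K Ω]
  {P : SPre.{u, v, w, t} k K Ω}

/-- the ranks of a conjugate idempotent -/
lemma rho_conj_le (U T : SmProjVar k) {u f w : Module.End Ω (P.H U)} (hu : u ∈ Mor P U U)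
    (hw : w ∈ Mor P U U) :
    rho P (tmap (w * f * u : Module.End Ω (P.H U)) (LinearMap.id : P.H T →ₗ[Ω] P.H T)) ≤
      rho P (tmap f (LinearMap.id : P.H T →ₗ[Ω] P.H T)) := by
  have := P.fin (U.prod T)
  have hu' : (tmap u (LinearMap.id : P.H T →ₗ[Ω] P.H T) : P.H (U.prod T) →ₗ[Ω] _) ∈
      Mor P (U.prod T) (U.prod T) := tmap_mem_Mor hu (isMap_id T)
  have hw' : (tmap w (LinearMap.id : P.H T →ₗ[Ω] P.H T) : P.H (U.prod T) →ₗ[Ω] _) ∈
      Mor P (U.prod T) (U.prod T) := tmap_mem_Mor hw (isMap_id T)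
  have h1 : (tmap (w * f * u : Module.End Ω (P.H U)) (LinearMap.id : P.H T →ₗ[Ω] P.H T) :
      P.H (U.prod T) →ₗ[Ω] _) = tmap w LinearMap.id ∘ₗ tmap f LinearMap.id ∘ₗ
        tmap u LinearMap.id := by
    rw [tmap_comp, tmap_comp, LinearMap.id_comp, LinearMap.id_comp]
    rfl
  unfold rho
  refine rdim_le_of_map (tmap w (LinearMap.id : P.H T →ₗ[Ω] P.H T)) (fun x hx _ => map_rad hw' hx) ?_
  rintro _ ⟨x, hx, rfl⟩
  refine ⟨tmap f LinearMap.id (tmap u LinearMap.id x),
    ⟨_, Pool.Agent.Helper4.HL.map_alg hu' hx, rfl⟩, ?_⟩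
  rw [h1]
  change _ - _ ∈ _
  rw [LinearMap.comp_apply, LinearMap.comp_apply, sub_self]
  exact zero_mem _

/-- **A direct summand** has the smaller defect. -/
theorem summand [CharZero Ω] (U Y : SmProjVar k) {e f u w : Module.End Ω (P.H U)}
    (he : e ∈ Mor P U U) (hee : e * e = e) (hff : f * f = f) (hu : u ∈ Mor P U U)
    (hw : w ∈ Mor P U U) (huw : u * w = f) (hew : e * w = w) (hue : u * e = u)
    (hwf : w * f = w) :
    Module.finrank Ω (LinearMap.range f) ≤ Module.finrank Ω (LinearMap.range e) ∧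
    ((Module.finrank Ω (LinearMap.range f) * nr P (Y.prod Y) : ℕ) : ℤ) -
        rho P (tmap f (LinearMap.id : P.H (Y.prod Y) →ₗ[Ω] P.H (Y.prod Y))) ≤
      ((Module.finrank Ω (LinearMap.range e) * nr P (Y.prod Y) : ℕ) : ℤ) -
        rho P (tmap e (LinearMap.id : P.H (Y.prod Y) →ₗ[Ω] P.H (Y.prod Y))) := by
  have := P.fin U
  have := P.fin (U.prod (Y.prod Y))
  have hqq : w * u * (w * u) = w * u := by
    rw [mul_assoc w u, ← mul_assoc u w, huw, ← mul_assoc w f, hwf]
  have heq : e * (w * u) = w * u := by rw [← mul_assoc, hew]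
  have hqe : w * u * e = w * u := by rw [mul_assoc, hue]
  have hr : (e - w * u) * (e - w * u) = e - w * u := by
    rw [sub_mul, mul_sub, mul_sub, hee, heq, hqe, hqq, sub_self, sub_zero]
  have hqm : w * u ∈ Mor P U U := mul_mem_Mor hw hu
  have hrm : e - w * u ∈ Mor P U U := Submodule.sub_mem _ he hqm
  have h1 : Module.finrank Ω (LinearMap.range (w * u)) +
      Module.finrank Ω (LinearMap.range (e - w * u)) ≤ Module.finrank Ω (LinearMap.range e) := by
    refine rank_add_le hqq ?_ heq ?_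
    · rw [mul_sub, hqe, hqq, sub_self]
    · rw [mul_sub, hee, heq]
  have h2 : Module.finrank Ω (LinearMap.range f) ≤
      Module.finrank Ω (LinearMap.range (w * u)) := by
    have h3 : f = u * (w * u) * w := by
      rw [← mul_assoc u w u, huw, mul_assoc, huw, hff]
    rw [h3]
    exact rank_mul_le _ _ _
  have h3 := rho_le U Y hrm (show (e - w * u) ∘ₗ (e - w * u) = e - w * u from hr)
  have h4 : rho P (tmap (w * u : Module.End Ω (P.H U))
      (LinearMap.id : P.H (Y.prod Y) →ₗ[Ω] P.H (Y.prod Y))) ≤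
      rho P (tmap f (LinearMap.id : P.H (Y.prod Y) →ₗ[Ω] P.H (Y.prod Y))) := by
    have h5 := rho_conj_le (P := P) U (Y.prod Y) (f := f) hu hw
    rwa [hwf] at h5
  have h5 : rho P (tmap e (LinearMap.id : P.H (Y.prod Y) →ₗ[Ω] P.H (Y.prod Y))) ≤
      rho P (tmap (w * u : Module.End Ω (P.H U))
        (LinearMap.id : P.H (Y.prod Y) →ₗ[Ω] P.H (Y.prod Y))) +
      rho P (tmap (e - w * u : Module.End Ω (P.H U))
        (LinearMap.id : P.H (Y.prod Y) →ₗ[Ω] P.H (Y.prod Y))) := by
    unfold rho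
    refine le_trans (rdim_mono ?_) (Pool.Agent.Helper46.QL.rdim_sup_le _ _ _)
    rintro _ ⟨x, hx, rfl⟩
    have h6 : tmap e (LinearMap.id : P.H (Y.prod Y) →ₗ[Ω] P.H (Y.prod Y)) x =
        tmap (w * u : Module.End Ω (P.H U)) LinearMap.id x +
          tmap (e - w * u : Module.End Ω (P.H U)) LinearMap.id x := by
      have h7 := Pool.Agent.Helper46.QL.tmap_sub_left (P := P) e (w * u)
        (LinearMap.id : P.H (Y.prod Y) →ₗ[Ω] P.H (Y.prod Y))
      rw [h7, LinearMap.sub_apply]
      abel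
    rw [h6]
    exact Submodule.add_mem_sup ⟨x, hx, rfl⟩ ⟨x, hx, rfl⟩
  refine ⟨by omega, ?_⟩
  have h6 : (Module.finrank Ω (LinearMap.range f) +
      Module.finrank Ω (LinearMap.range (e - w * u))) * nr P (Y.prod Y) ≤
        Module.finrank Ω (LinearMap.range e) * nr P (Y.prod Y) :=
    Nat.mul_le_mul_right _ (by omega)
  rw [add_mul] at h6
  have h7 := h3
  zify at h4 h5 h6 h7 ⊢
  push_cast at h4 h5 h6 h7 ⊢
  linarith

end Pool.Agent.Helper13.P2
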