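import Mathlib
import Pool.Agent.Helper13.P2.Summ
import Pool.Agent.Helper47.P2.Sym

/-!
# The step between products of super symmetric powers
-/

universe u v w t

open CategoryTheory TensorProduct

namespace Pool.Agent.Helper13.P2

open Pool.Agent.Helper10 Pool.Agent.Helper11.Iso SmProjVar SPre Pool.Agent.Helper34.ZP
  Pool.Agent.Helper59.ZO Pool.Agent.Helper13.ZP Pool.Agent.Helper13.PR

variable {k : Type u} [Field k] {K : Type t} [Field K] {Ω : Type v} [Field Ω] [Algebra K Ω]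
  {P : SPre.{u, v, w, t} k K Ω}

/-- the representation of the product of two symmetric groups -/
def blk {R : Type*} [Ring R] {n : ℕ} (ρ : Equiv.Perm (Fin n) →* R) {a b : ℕ} (h : a + b = n) :
    Equiv.Perm (Fin a) × Equiv.Perm (Fin b) →* R where
  toFun g := ρ (emb (blocks h) g.1 g.2)
  map_one' := by
    change ρ (emb (blocks h) 1 1) = 1
    rw [emb_one, map_one]
  map_mul' g g' := by
    rw [← map_mul, emb_mul]
    rfl

lemma sbl_mul_sbl [CharZero Ω] {R : Type*} [Ring R] [Algebra Ω R] {n : ℕ}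
    (ρ : Equiv.Perm (Fin n) →* R) {a b : ℕ} (h : a + b = n) :
    sbl Ω (fun σ => ρ σ) h * sbl Ω (fun σ => ρ σ) h = sbl Ω (fun σ => ρ σ) h :=
  avg_mul_avg (blk ρ h)

lemma sbl_mem (Z : SmProjVar k) {n a b : ℕ} (h : a + b = n + 1) :
    sbl Ω (fun σ => prm P Z n σ) h ∈ Mor P (Z.selfProd n) (Z.selfProd n) :=
  Submodule.smul_mem _ _ (sum_mem fun _ _ => prm_mem Z n _)

lemma rank_sbl' (Z : SmProjVar k) {N a b : ℕ} (h : (a + 1) + (b + 1) = N + 1) :
    Module.finrank Ω (LinearMap.range (sbl Ω (fun σ => prm P Z N σ) h)) =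
      Module.finrank Ω (LinearMap.range (ssp P Z a)) *
        Module.finrank Ω (LinearMap.range (ssp P Z b)) := by
  obtain rfl : N = a + b + 1 := by omega
  exact rank_sbl Z a b h

lemma rho_sbl' (Z T : SmProjVar k) {N a b : ℕ} (h : (a + 1) + (b + 1) = N + 1) :
    rho P (tmap (sbl Ω (fun σ => prm P Z N σ) h) (LinearMap.id : P.H T →ₗ[Ω] P.H T)) =
      rho P (tmap (tmap (ssp P Z a) (ssp P Z b)) (LinearMap.id : P.H T →ₗ[Ω] P.H T)) := by
  obtain rfl : N = a + b + 1 := by omega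
  exact rho_sbl Z T a b h

/-- **The step**: `S^(i+2) ⊗ S^(j+1)` is a direct summand of `S^(i+1) ⊗ S^(j+2)`, `j + 1 ≤ i`. -/
theorem ssp_step [CharZero Ω] (Z Y : SmProjVar k) {i j : ℕ} (hij : j + 1 ≤ i) :
    Module.finrank Ω (LinearMap.range (ssp P Z (i + 1))) *
        Module.finrank Ω (LinearMap.range (ssp P Z j)) ≤
      Module.finrank Ω (LinearMap.range (ssp P Z i)) *
        Module.finrank Ω (LinearMap.range (ssp P Z (j + 1))) ∧
    ((Module.finrank Ω (LinearMap.range (ssp P Z (i + 1))) *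
        Module.finrank Ω (LinearMap.range (ssp P Z j)) * nr P (Y.prod Y) : ℕ) : ℤ) -
        rho P (tmap (tmap (ssp P Z (i + 1)) (ssp P Z j))
          (LinearMap.id : P.H (Y.prod Y) →ₗ[Ω] P.H (Y.prod Y))) ≤
      ((Module.finrank Ω (LinearMap.range (ssp P Z i)) *
        Module.finrank Ω (LinearMap.range (ssp P Z (j + 1))) * nr P (Y.prod Y) : ℕ) : ℤ) -
        rho P (tmap (tmap (ssp P Z i) (ssp P Z (j + 1)))
          (LinearMap.id : P.H (Y.prod Y) →ₗ[Ω] P.H (Y.prod Y))) := by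
  have := P.fin (Z.selfProd (i + j + 2))
  have h : (i + 1) + (j + 1 + 1) = (i + j + 2) + 1 := by omega
  have h' : (i + 1 + 1) + (j + 1) = (i + j + 2) + 1 := by omega
  obtain ⟨u, hu, w, hw, huw, hew, hue, hwf, -⟩ := Pool.Agent.Helper47.P2.sym_step (Ω := Ω) (prm P Z (i + j + 2)) h h'
    (by omega) (Mor P (Z.selfProd (i + j + 2)) (Z.selfProd (i + j + 2))) (fun σ => prm_mem Z _ σ)
    (fun x hx y hy => mul_mem_Mor hx hy)
  have h1 := summand (P := P) (Z.selfProd (i + j + 2)) Y (sbl_mem Z h)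
    (sbl_mul_sbl (prm P Z (i + j + 2)) h) (sbl_mul_sbl (prm P Z (i + j + 2)) h') hu hw huw hew hue
    hwf
  rw [rank_sbl' Z h, rank_sbl' Z h', rho_sbl' Z _ h, rho_sbl' Z _ h'] at h1
  exact h1

end Pool.Agent.Helper13.P2
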