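import Mathlib
import Pool.Agent.Helper13.P2.Step
import Pool.Agent.Helper13.PR.Poly
import Pool.Agent.Helper10.P2.Lin
import Pool.Agent.Helper4.P2.Corner
import Pool.Agent.Helper34.P2.Num

/-!
# A polynomial rate without the sign conjecture
-/

universe u v w t

open CategoryTheory TensorProduct

namespace Pool.Agent.Helper13.P2

open Pool.Agent.Helper10 Pool.Agent.Helper11.Iso SmProjVar SPre Pool.Agent.Helper34.ZP
  Pool.Agent.Helper59.ZO Pool.Agent.Helper13.ZP Pool.Agent.Helper13.PR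

variable {k : Type u} [Field k] {K : Type t} [Field K] {Ω : Type v} [Field Ω] [Algebra K Ω]
  {P : SPre.{u, v, w, t} k K Ω}

/-- the rank of the symmetric power -/
noncomputable def sR (P : SPre.{u, v, w, t} k K Ω) (Z : SmProjVar k) : ℕ → ℕ
  | 0 => 1
  | n + 1 => Module.finrank Ω (LinearMap.range (ssp P Z n))

lemma sR_succ (Z : SmProjVar k) (n : ℕ) :
    sR P Z (n + 1) = Module.finrank Ω (LinearMap.range (ssp P Z n)) := rfl

/-- the rank of the symmetric power times `T` -/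
noncomputable def aR (P : SPre.{u, v, w, t} k K Ω) (Z T : SmProjVar k) (n : ℕ) : ℕ :=
  rho P (tmap (ssp P Z (n - 1)) (LinearMap.id : P.H T →ₗ[Ω] P.H T))

lemma aR_succ (Z T : SmProjVar k) (n : ℕ) : aR P Z T (n + 1) =
    rho P (tmap (ssp P Z n) (LinearMap.id : P.H T →ₗ[Ω] P.H T)) := rfl

/-- the rank of the product of two symmetric powers times `T` -/
noncomputable def bR (P : SPre.{u, v, w, t} k K Ω) (Z T : SmProjVar k) (i j : ℕ) : ℕ :=
  rho P (tmap (tmap (ssp P Z (i - 1)) (ssp P Z (j - 1))) (LinearMap.id : P.H T →ₗ[Ω] P.H T))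

lemma bR_succ (Z T : SmProjVar k) (i j : ℕ) : bR P Z T (i + 1) (j + 1) =
    rho P (tmap (tmap (ssp P Z i) (ssp P Z j)) (LinearMap.id : P.H T →ₗ[Ω] P.H T)) := rfl

/-- the even powers -/
theorem poly_even2 (b r : ℕ) (hb : 1 ≤ b) : ∃ C α : ℝ, 0 < C ∧ 0 < α ∧
    ∀ (k : Type u) [Field k] (K : Type t) [Field K] (Ω : Type v) [Field Ω] [Algebra K Ω]
      [CharZero Ω] (P : SPre.{u, v, w, t} k K Ω), (∀ Y, 1 ≤ nr P Y) → ∀ X : SmProjVar k,
        Module.finrank Ω (P.H X) = b → ¬ P.D (X.selfProd r) → ∀ l : ℕ,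
          (nr P (X.selfProd (2 * l + 1)) : ℝ) * ((l : ℝ) + 2) ^ α ≤
            C * hr P (X.selfProd (2 * l + 1)) := by
  obtain ⟨C, α, hC, hα, h⟩ := Pool.Agent.Helper34.P2.poly_numeric2 b (b ^ (2 * (r + 1))) (r + 1) (b ^ 2) hb (by omega)
  refine ⟨C, α, hC, hα, ?_⟩
  intro k _ K _ Ω _ _ _ P hpt X hXb hD
  have hfin : Module.finrank Ω (P.H (X.selfProd (2 * r + 1))) = b ^ (2 * (r + 1)) := by
    rw [finrank_selfProd, hXb]
    congr 1
  have hT : ∀ l, nr P ((X.selfProd l).prod (X.selfProd l)) = nr P (X.selfProd (2 * l + 1)) := by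
    intro l
    rw [nr_pow_prod_pow, show l + l + 1 = 2 * l + 1 by ring]
  have hTh : ∀ l, hr P ((X.selfProd l).prod (X.selfProd l)) = hr P (X.selfProd (2 * l + 1)) := by
    intro l
    rw [hr_pow_prod_pow, show l + l + 1 = 2 * l + 1 by ring]
  obtain ⟨z, hz, hz0⟩ := exists_even' hD
  have hmem := ssp_mem (P := P) (X.selfProd (2 * r + 1))
  have hid := ssp_idem (P := P) (X.selfProd (2 * r + 1))
  refine h (fun l => hr P (X.selfProd (2 * l + 1))) (fun l => nr P (X.selfProd (2 * l + 1)))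
    (sR P (X.selfProd (2 * r + 1)))
    (fun l => aR P (X.selfProd (2 * r + 1)) ((X.selfProd l).prod (X.selfProd l)))
    (fun l => bR P (X.selfProd (2 * r + 1)) ((X.selfProd l).prod (X.selfProd l)))
    (fun l => hpt _) ?_ (even_conv X) ?_ ?_ ?_ ?_ ?_ ?_ ?_ ?_ ?_ ?_
  · intro l
    have h2 := nr_le_pow (P := P) X (2 * l + 1)
    rwa [hXb, show 2 * l + 1 + 1 = 2 * (l + 1) by ring] at h2
  · intro l
    have h2 := even_growth hpt X l
    rwa [hXb] at h2
  · intro i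
    rcases i with _ | i
    · exact le_rfl
    · exact one_le_ssp (P.alg_le_ev _ hz.1) hz0 i
  · intro i
    rcases i with _ | i
    · change 1 ≤ _
      simp
    · have h2 := ssp_rank_le (P := P) (X.selfProd (2 * r + 1)) i
      rwa [hfin] at h2
  · intro i j hj hij
    obtain ⟨i, rfl⟩ : ∃ i', i = i' + 1 := ⟨i - 1, by omega⟩
    obtain ⟨j, rfl⟩ : ∃ j', j = j' + 1 := ⟨j - 1, by omega⟩
    exact (ssp_step (P := P) (X.selfProd (2 * r + 1)) X (i := i) (j := j) (by omega)).1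
  · intro l i j hj hij
    obtain ⟨i, rfl⟩ : ∃ i', i = i' + 1 := ⟨i - 1, by omega⟩
    obtain ⟨j, rfl⟩ : ∃ j', j = j' + 1 := ⟨j - 1, by omega⟩
    have h2 := (ssp_step (P := P) (X.selfProd (2 * r + 1)) (X.selfProd l) (i := i) (j := j)
      (by omega)).2
    rw [hT] at h2
    push_cast at h2
    exact h2
  · intro l i j hi hj
    obtain ⟨i, rfl⟩ : ∃ i', i = i' + 1 := ⟨i - 1, by omega⟩
    obtain ⟨j, rfl⟩ : ∃ j', j = j' + 1 := ⟨j - 1, by omega⟩
    have h2 := Pool.Agent.Helper10.P2.lin_mul _ _ (X.selfProd l) (hmem i) (hid i) (hmem j) (hid j)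
    rw [hT] at h2
    push_cast at h2
    exact h2
  · intro l i j hi hj
    obtain ⟨i, rfl⟩ : ∃ i', i = i' + 1 := ⟨i - 1, by omega⟩
    obtain ⟨j, rfl⟩ : ∃ j', j = j' + 1 := ⟨j - 1, by omega⟩
    have h2 := Pool.Agent.Helper10.P2.lin_div _ _ (X.selfProd l) (hmem i) (hid i) (hmem j) (hid j)
    rw [hT] at h2
    push_cast at h2
    exact h2
  · intro l i hi
    obtain ⟨i, rfl⟩ : ∃ i', i = i' + 1 := ⟨i - 1, by omega⟩
    have h2 := rho_le _ (X.selfProd l) (hmem i) (hid i)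
    rw [hT] at h2
    exact h2
  · intro l j hj
    obtain ⟨j, rfl⟩ : ∃ j', j = j' + 1 := ⟨j - 1, by omega⟩
    have h2 := Pool.Agent.Helper47.PR.rho_compl (P := P) (Y := X.selfProd l) (hmem j) (hid j)
    rw [nr_pow_pow, hT, finrank_selfProd, hfin, ← pow_mul] at h2
    have e1 : 2 * (l + (r + 1) * (j + 1)) + 1 = (2 * r + 1 + 1) * (j + 1) + 2 * l + 1 := by ring
    change sR P (X.selfProd (2 * r + 1)) (j + 1) * nr P (X.selfProd (2 * l + 1)) +
      nr P (X.selfProd (2 * (l + (r + 1) * (j + 1)) + 1)) ≤ _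
    rw [e1]
    exact h2
  · intro l k0 hδ
    have h2 := Pool.Agent.Helper4.P2.layers_corner hz hz0 hmem hid
      (fun i => ssp_zpow (P.alg_le_ev _ hz.1) i) (fun i => adj_ssp _ i) (X.selfProd l) k0
      (fun i hi => by
        have h3 := hδ i hi
        rw [hT]
        exact h3)
    rw [hT, hTh] at h2
    exact h2

/-- **A polynomial rate**: if `D` fails for `X ^ (r + 1)`, the ratio of the ranks grows at least
like a power, with constants which depend only on `b ≥ dim H(X)` and `r`. -/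
theorem poly_rate2 (b r : ℕ) : ∃ C α : ℝ, 0 < C ∧ 0 < α ∧
    ∀ (k : Type u) [Field k] (K : Type t) [Field K] (Ω : Type v) [Field Ω] [Algebra K Ω]
      [CharZero Ω] (P : SPre.{u, v, w, t} k K Ω), (∀ Y, 1 ≤ nr P Y) → ∀ X : SmProjVar k,
        Module.finrank Ω (P.H X) ≤ b → ¬ P.D (X.selfProd r) → ∀ n : ℕ,
          (nr P (X.selfProd n) : ℝ) * ((n : ℝ) + 2) ^ α ≤ C * hr P (X.selfProd n) := by
  induction b with
  | zero =>
    refine ⟨1, 1, one_pos, one_pos, ?_⟩
    intro k _ K _ Ω _ _ _ P hpt X hX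
    have h := one_le_finrank hpt X
    omega
  | succ b ih =>
    obtain ⟨C₁, α₁, hC₁, hα₁, h₁⟩ := ih
    obtain ⟨C₂, α₂, hC₂, hα₂, h₂⟩ := poly_even2.{u, v, w, t} (b + 1) r (by omega)
    refine ⟨max C₁ ((2 : ℝ) ^ α₂ * (C₂ + 1) * ((b + 1 : ℕ) : ℝ)), min α₁ α₂,
      lt_max_of_lt_left hC₁, lt_min hα₁ hα₂, ?_⟩
    intro k _ K _ Ω _ _ _ P hpt X hXb hD n
    rcases Nat.lt_or_ge (Module.finrank Ω (P.H X)) (b + 1) with hlt | hge
    · exact weaken (le_max_left _ _) (min_le_left _ _)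
        (h₁ k K Ω P hpt X (by omega) hD n)
    · have hXb' : Module.finrank Ω (P.H X) = b + 1 := le_antisymm hXb hge
      have h3 := Pool.Agent.Helper10.PR.all_of_even_pow hpt X hC₂ hα₂ (h₂ k K Ω P hpt X hXb' hD) n
      rw [hXb'] at h3
      exact weaken (le_max_right _ _) (min_le_right _ _) h3

end Pool.Agent.Helper13.P2
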