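import Mathlib
import Pool.Agent.Helper59.ZP.ZFinal
import Pool.Agent.Helper11.ZQ.Pow
import Pool.Agent.Helper13.P2.Poly2

/-!
# The polynomial rate in terms of Weil cohomology theories
-/

universe u v w

open CategoryTheory Filter Topology

namespace Pool.Agent.Helper13.P2

open Pool.Agent.Helper10 Pool.Agent.Helper11 SmProjVar Pool.Agent.Helper59.ZO
  Pool.Agent.Helper34.ZP Pool.Agent.Helper11.Iso Pool.Agent.Helper59.ZP

/-- The second case of the trichotomy: D fails for a power of `X`, the numerically trivial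
self-correspondences of the powers are nilpotent, and `a / n` lies between two powers of `m`. -/
def CasePoly {k : Type u} [Field k] {K : Type v} [Field K] (W : CohomologyData.{u, v, w} k K)
    (X : SmProjVar k) : Prop :=
  (¬ ∀ m, W.StandardD (X.selfProd m)) ∧ NullNilpotent W X ∧
    (∃ t : ℝ, 0 < t ∧ ∃ c : ℝ, 0 < c ∧ ∀ m : ℕ,
      c * ((m : ℝ) + 2) ^ t * numCycRank W (X.selfProd m) ≤ cycRank W (X.selfProd m)) ∧
    ∀ m : ℕ, cycRank W (X.selfProd m) ≤
      betti W X * (numCycRank W (X.selfProd m) * (m + 2) ^ (betti W X ^ 2))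

/-- **Uniform polynomial rate.** -/
theorem uniform_poly (b r : ℕ) : ∃ C α : ℝ, 0 < C ∧ 0 < α ∧
    ∀ (k : Type u) [Field k] (K : Type v) [Field K] [CharZero K]
      (W : WeilCohomology.{u, v, w} k K) (X : SmProjVar k), betti W.toCohomologyData X ≤ b →
        ¬ W.StandardD (X.selfProd r) → ∀ n : ℕ,
          (numCycRank W.toCohomologyData (X.selfProd n) : ℝ) * ((n : ℝ) + 2) ^ α ≤
            C * cycRank W.toCohomologyData (X.selfProd n) := by
  obtain ⟨C, α, hC, hα, h⟩ := poly_rate2.{u, v, w, v} b r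
  refine ⟨C, α, hC, hα, ?_⟩
  intro k _ K _ _ W X hX hD n
  have h1 := h k K K (base W) (nr_base_pos W) X hX (fun h => hD ((d_base W _).mp h)) n
  rw [nr_base, hr_base] at h1
  exact h1

/-- **One power is enough**, with the polynomial rate. -/
theorem one_power_poly (b r : ℕ) : ∃ C α : ℝ, 0 < C ∧ 0 < α ∧
    ∀ (k : Type u) [Field k] (K : Type v) [Field K] [CharZero K]
      (W : WeilCohomology.{u, v, w} k K) (X : SmProjVar k), betti W.toCohomologyData X ≤ b →
        ∀ n : ℕ, C * cycRank W.toCohomologyData (X.selfProd n) <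
          numCycRank W.toCohomologyData (X.selfProd n) * ((n : ℝ) + 2) ^ α →
            W.StandardD (X.selfProd r) := by
  obtain ⟨C, α, hC, hα, h⟩ := uniform_poly.{u, v, w} b r
  refine ⟨C, α, hC, hα, ?_⟩
  intro k _ K _ _ W X hX n hn
  by_contra hD
  exact absurd hn (not_lt.mpr (h k K W X hX hD n))

section

variable {k : Type u} [Field k] {K : Type v} [Field K] [CharZero K]

/-- D for all varieties in terms of a proportion which may tend to zero, more slowly than every
power of `1 / dim Y`. -/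
theorem all_iff_powers {W : WeilCohomology.{u, v, w} k K} : (∀ Y, W.StandardD Y) ↔
    ∃ e : ℕ → ℝ, Pool.Agent.Helper10.PR.SlowerThanPowers e ∧ ∀ Y,
      e Y.dim * cycRank W.toCohomologyData Y ≤ numCycRank W.toCohomologyData Y :=
  Pool.Agent.Helper11.ZQ.all_iff_power fun b => poly_rate2.{u, v, w, v} b 0

/-- **Trichotomy.** -/
theorem trichotomy2 (W : WeilCohomology.{u, v, w} k K) (X : SmProjVar k) :
    CaseD W.toCohomologyData X ∨ CasePoly W.toCohomologyData X ∨
      CaseExp W.toCohomologyData X := by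
  rcases trichotomy W X with h | ⟨h1, h2, -, h4⟩ | h
  · exact .inl h
  · refine .inr (.inl ⟨h1, h2, ?_, h4⟩)
    rw [not_forall] at h1
    obtain ⟨r, hr⟩ := h1
    obtain ⟨C, α, hC, hα, h⟩ := uniform_poly.{u, v, w} (betti W.toCohomologyData X) r
    refine ⟨α, hα, C⁻¹, inv_pos.mpr hC, fun m => ?_⟩
    have h5 := h k K W X le_rfl hr m
    rw [mul_assoc, inv_mul_le_iff₀ hC, mul_comm (((m : ℝ) + 2) ^ α)]
    exact h5
  · exact .inr (.inr h)

end

end Pool.Agent.Helper13.P2
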